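import Mathlib

/-!
Umbral expectation functionals on polynomial rings: a colour class of the complement of a
triangle-free graph is empty, a single vertex or an edge, which is the operator `T` below.
-/

namespace Pool.Agent.Lib.MP_d3f2bc_co
open MvPolynomial

variable {σ : Type}

/-- The derivation with constant coefficients `c`. -/
noncomputable def cd (c : σ → ℚ) : Derivation ℚ (MvPolynomial σ ℚ) (MvPolynomial σ ℚ) :=
  mkDerivation ℚ (fun q => C (c q))

@[simp] lemma cd_X (c : σ → ℚ) (q : σ) : cd c (X q) = C (c q) := by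
  simp [cd, mkDerivation_X]

@[simp] lemma cd_C (c : σ → ℚ) (a : ℚ) : cd c (C a) = 0 := derivation_C _ _

lemma cd_mul (c : σ → ℚ) (f g : MvPolynomial σ ℚ) :
    cd c (f * g) = cd c f * g + f * cd c g := by
  rw [Derivation.leibniz]; simp only [smul_eq_mul]; ring

lemma cd_comm (c c' : σ → ℚ) (f : MvPolynomial σ ℚ) : cd c (cd c' f) = cd c' (cd c f) := by
  induction f using MvPolynomial.induction_on with
  | C a => simp
  | add p q hp hq => simp [hp, hq]
  | mul_X p n hp => simp only [cd_mul, map_add, cd_X, cd_C, hp]; ring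

lemma cd_prod_zero {ι : Type} (c : σ → ℚ) (s : Finset ι) (g : ι → MvPolynomial σ ℚ)
    (h : ∀ i ∈ s, cd c (g i) = 0) : cd c (∏ i ∈ s, g i) = 0 := by
  classical
  induction s using Finset.induction_on with
  | empty => simp
  | insert a s ha ih =>
    rw [Finset.prod_insert ha, cd_mul, h a (by simp), ih (fun i hi => h i (by simp [hi]))]
    simp

lemma cd_prod {ι : Type} [DecidableEq ι] (c : σ → ℚ) (s : Finset ι) (g : ι → MvPolynomial σ ℚ) :
    cd c (∏ i ∈ s, g i) = ∑ i ∈ s, cd c (g i) * ∏ j ∈ s.erase i, g j := by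
  induction s using Finset.induction_on with
  | empty => simp
  | insert a s ha ih =>
    rw [Finset.prod_insert ha, cd_mul, ih, Finset.sum_insert ha, Finset.erase_insert ha,
      Finset.mul_sum]
    congr 1
    refine Finset.sum_congr rfl fun i hi => ?_
    have hia : a ≠ i := fun h => ha (h ▸ hi)
    rw [Finset.erase_insert_of_ne hia, Finset.prod_insert (fun h => ha (Finset.mem_of_mem_erase h))]
    ring

section E
variable [Fintype σ] [DecidableEq σ] (cov : σ → σ → ℚ) (lam : σ → ℚ)

/-- Half the second order operator with coefficient matrix `cov`. -/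
noncomputable def Del : MvPolynomial σ ℚ →ₗ[ℚ] MvPolynomial σ ℚ :=
  (1 / 2 : ℚ) • ∑ p : σ, (cd (Pi.single p 1)).toLinearMap ∘ₗ (cd (cov p)).toLinearMap

/-- One colour: unused, used once, or used twice. -/
noncomputable def T : MvPolynomial σ ℚ →ₗ[ℚ] MvPolynomial σ ℚ :=
  LinearMap.id + (cd lam).toLinearMap + Del cov

/-- The functional for `k` colours. -/
noncomputable def E (k : ℕ) : MvPolynomial σ ℚ →ₗ[ℚ] ℚ :=
  (aeval (fun _ : σ => (0 : ℚ))).toLinearMap ∘ₗ (T cov lam ^ k)

lemma Del_apply (f : MvPolynomial σ ℚ) :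
    Del cov f = (1 / 2 : ℚ) • ∑ p : σ, cd (Pi.single p 1) (cd (cov p) f) := by
  simp [Del, LinearMap.sum_apply]

lemma T_apply (f : MvPolynomial σ ℚ) : T cov lam f = f + cd lam f + Del cov f := by
  simp [T]

lemma sum_cd_single (c : σ → ℚ) (f : MvPolynomial σ ℚ) :
    ∑ q : σ, C (c q) * cd (Pi.single q 1) f = cd c f := by
  induction f using MvPolynomial.induction_on with
  | C a => simp
  | add p q hp hq => simp only [map_add, mul_add, Finset.sum_add_distrib, hp, hq]
  | mul_X p n hp =>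
    simp only [cd_mul, cd_X, mul_add, Finset.sum_add_distrib]
    rw [← hp, Finset.sum_mul]
    congr 1
    · exact Finset.sum_congr rfl fun q _ => by ring
    · rw [Finset.sum_eq_single n]
      · simp; ring
      · intro b _ hb; simp [hb.symm]
      · simp

variable {cov}

lemma Del_X_mul (hs : ∀ p q, cov p q = cov q p) (p : σ) (f : MvPolynomial σ ℚ) :
    Del cov (X p * f) = X p * Del cov f + cd (cov p) f := by
  rw [Del_apply, Del_apply]
  have h1 : ∀ q : σ, cd (Pi.single q 1) (cd (cov q) (X p * f)) =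
      C (cov p q) * cd (Pi.single q 1) f + (C ((Pi.single q 1 : σ → ℚ) p) * cd (cov q) f
        + X p * cd (Pi.single q 1) (cd (cov q) f)) := by
    intro q
    simp only [cd_mul, map_add, cd_X, cd_C, hs q p]; ring
  simp only [h1, Finset.sum_add_distrib, sum_cd_single]
  have h2 : ∑ q : σ, C ((Pi.single q 1 : σ → ℚ) p) * cd (cov q) f = cd (cov p) f := by
    rw [Finset.sum_eq_single p]
    · simp
    · intro b _ hb; simp [hb.symm]
    · simp
  rw [h2, ← Finset.mul_sum]
  simp only [smul_add, mul_smul_comm]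
  have : (1 / 2 : ℚ) • cd (cov p) f + (1 / 2 : ℚ) • cd (cov p) f = cd (cov p) f := by
    rw [← add_smul]; norm_num
  linear_combination this

lemma T_X_mul (hs : ∀ p q, cov p q = cov q p) (p : σ) (f : MvPolynomial σ ℚ) :
    T cov lam (X p * f) = X p * T cov lam f + (C (lam p) * f + cd (cov p) f) := by
  rw [T_apply, T_apply, Del_X_mul hs, cd_mul, cd_X]; ring

lemma T_cd (c : σ → ℚ) (f : MvPolynomial σ ℚ) : T cov lam (cd c f) = cd c (T cov lam f) := by
  rw [T_apply, T_apply, Del_apply, Del_apply]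
  simp only [map_add, Derivation.map_smul, map_sum]
  rw [cd_comm lam c, Finset.sum_congr rfl (fun q _ => show
    cd (Pi.single q 1) (cd (cov q) (cd c f)) = cd c (cd (Pi.single q 1) (cd (cov q) f)) by
      rw [cd_comm (cov q) c, cd_comm _ c])]

lemma T_C_mul (a : ℚ) (f : MvPolynomial σ ℚ) : T cov lam (C a * f) = C a * T cov lam f := by
  rw [← smul_eq_C_mul, ← smul_eq_C_mul, map_smul]

lemma T_pow_X_mul (hs : ∀ p q, cov p q = cov q p) (p : σ) (k : ℕ) (f : MvPolynomial σ ℚ) :
    (T cov lam ^ (k + 1)) (X p * f) = X p * (T cov lam ^ (k + 1)) f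
      + ((k : ℚ) + 1) • (T cov lam ^ k) (C (lam p) * f + cd (cov p) f) := by
  induction k generalizing f with
  | zero => simp [T_X_mul lam hs]
  | succ k ih =>
    have e : ∀ (m : ℕ) (g : MvPolynomial σ ℚ),
        (T cov lam ^ (m + 1)) g = (T cov lam ^ m) (T cov lam g) := by
      intro m g; rw [pow_succ]; rfl
    rw [e (k + 1), T_X_mul lam hs, map_add, ih, ← e (k + 1) f, ← T_cd, ← T_C_mul, ← map_add,
      ← e k]
    push_cast
    rw [add_smul ((k : ℚ) + 1) 1, one_smul]
    ring

lemma E_C (k : ℕ) (a : ℚ) : E cov lam k (C a) = a := by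
  have : (T cov lam ^ k) (C a) = C a := by
    induction k with
    | zero => simp
    | succ k ih =>
      rw [pow_succ']
      change T cov lam ((T cov lam ^ k) (C a)) = C a
      rw [ih, T_apply, Del_apply]; simp
  simp [E, this]

lemma E_one (k : ℕ) : E cov lam k 1 = 1 := by
  simpa using E_C (cov := cov) lam k 1

lemma E_C_mul (k : ℕ) (a : ℚ) (f : MvPolynomial σ ℚ) :
    E cov lam k (C a * f) = a * E cov lam k f := by
  rw [← smul_eq_C_mul, map_smul, smul_eq_mul]

/-- Stein identity. -/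
lemma stein (hs : ∀ p q, cov p q = cov q p) (k : ℕ) (p : σ) (f : MvPolynomial σ ℚ) :
    E cov lam k (X p * f) = k * E cov lam (k - 1) (C (lam p) * f + cd (cov p) f) := by
  cases k with
  | zero => simp [E]
  | succ k =>
    simp only [E, LinearMap.comp_apply, T_pow_X_mul lam hs, map_add, map_smul]
    simp

end E

/-- Rescaling the variables. -/
noncomputable def sg (ε : σ → ℚ) : MvPolynomial σ ℚ →ₐ[ℚ] MvPolynomial σ ℚ :=
  aeval (fun p => C (ε p) * X p)

@[simp] lemma sg_X (ε : σ → ℚ) (p : σ) : sg ε (X p) = C (ε p) * X p := by simp [sg]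

@[simp] lemma sg_C (ε : σ → ℚ) (a : ℚ) : sg ε (C a) = C a := by simp [sg]

lemma sg_cd (ε c1 c2 : σ → ℚ) (e : ℚ) (h : ∀ q, c2 q = e * ε q * c1 q) (f : MvPolynomial σ ℚ) :
    sg ε (cd c2 f) = C e * cd c1 (sg ε f) := by
  induction f using MvPolynomial.induction_on with
  | C a => simp
  | add p q hp hq => simp only [map_add, hp, hq, mul_add]
  | mul_X p n hp =>
    simp only [cd_mul, map_add, map_mul, cd_X, cd_C, hp, sg_X, sg_C, h n]; ring

/-- Invariance under sign changes. -/
lemma E_sg [Fintype σ] [DecidableEq σ] {c1 c2 : σ → σ → ℚ} (lam ε : σ → ℚ)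
    (h1 : ∀ p q, c1 p q = c1 q p) (h2 : ∀ p q, c2 p q = c2 q p)
    (hc : ∀ p q, c2 p q = ε p * ε q * c1 p q) (hl : ∀ p, ε p * lam p = lam p)
    (k : ℕ) (f : MvPolynomial σ ℚ) : E c2 lam k f = E c1 lam k (sg ε f) := by
  induction k generalizing f with
  | zero =>
    induction f using MvPolynomial.induction_on with
    | C a => simp [E_C]
    | add p q hp hq => simp only [map_add, hp, hq]
    | mul_X p n _ =>
      rw [map_mul (sg ε), sg_X, mul_comm p, stein lam h2,
        show sg ε p * (C (ε n) * X n) = C (ε n) * (X n * sg ε p) by ring, E_C_mul, stein lam h1]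
      simp
  | succ k ih =>
    induction f using MvPolynomial.induction_on with
    | C a => simp [E_C]
    | add p q hp hq => simp only [map_add, hp, hq]
    | mul_X p n _ =>
      rw [map_mul (sg ε), sg_X, mul_comm p, stein lam h2,
        show sg ε p * (C (ε n) * X n) = C (ε n) * (X n * sg ε p) by ring, E_C_mul, stein lam h1]
      simp only [Nat.add_sub_cancel, ih, map_add, map_mul, sg_C, sg_cd ε (c1 n) (c2 n) (ε n) (hc n),
        E_C_mul]
      push_cast
      linear_combination (-((k : ℚ) + 1) * E c1 lam k (sg ε p)) * hl n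

section Red
variable [Fintype σ] [DecidableEq σ] (cov : σ → σ → ℚ) (lam : σ → ℚ)

/-- `f` reduces to `g` after spending `c` colours. -/
def Red (c : ℕ) (f g : MvPolynomial σ ℚ) : Prop :=
  ∀ k : ℕ, E cov lam k f = (k.descFactorial c : ℚ) * E cov lam (k - c) g

variable {cov lam}

lemma Red.refl (f : MvPolynomial σ ℚ) : Red cov lam 0 f f := by
  intro k; simp

lemma Red.trans {a b : ℕ} {f g h : MvPolynomial σ ℚ} (h1 : Red cov lam a f g)
    (h2 : Red cov lam b g h) : Red cov lam (a + b) f h := by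
  intro k
  rw [h1 k, h2 (k - a), Nat.sub_sub, ← mul_assoc]
  congr 1
  have := @Nat.descFactorial_mul_descFactorial a (a + b) k (by omega)
  rw [Nat.add_sub_cancel_left] at this
  rw [← this]; push_cast; ring

lemma Red.step (hs : ∀ p q, cov p q = cov q p) {p : σ} (hp : lam p = 0) (f : MvPolynomial σ ℚ) :
    Red cov lam 1 (X p * f) (cd (cov p) f) := by
  intro k
  rw [stein lam hs, hp]; simp

lemma Red.congr {a : ℕ} {f g f' g' : MvPolynomial σ ℚ} (h : Red cov lam a f g) (hf : f' = f)
    (hg : g' = g) : Red cov lam a f' g' := by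
  subst hf; subst hg; exact h

/-- Block elimination. -/
lemma elim {ι : Type} [DecidableEq ι] (hs : ∀ p q, cov p q = cov q p) (p : ι → σ)
    (g h : ι → MvPolynomial σ ℚ) (hl : ∀ i, lam (p i) = 0) (hpp : ∀ i j, cov (p i) (p j) = 0)
    (hg : ∀ i, cd (cov (p i)) (g i) = h i) (hg' : ∀ i j, i ≠ j → cd (cov (p i)) (g j) = 0)
    (hh : ∀ i j, i ≠ j → cd (cov (p i)) (h j) = 0) (s : Finset ι) (Q : MvPolynomial σ ℚ)
    (hQ : ∀ i ∈ s, cd (cov (p i)) Q = 0) :
    Red cov lam s.card (Q * ∏ i ∈ s, (X (p i) * g i)) (Q * ∏ i ∈ s, h i) := by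
  induction s using Finset.induction_on generalizing Q with
  | empty => simpa using Red.refl Q
  | insert a s ha ih =>
    rw [Finset.card_insert_of_notMem ha, Finset.prod_insert ha, Finset.prod_insert ha, add_comm]
    have h1 := Red.step hs (hl a) (Q * g a * ∏ i ∈ s, (X (p i) * g i))
    have h2 : cd (cov (p a)) (∏ i ∈ s, (X (p i) * g i)) = 0 := by
      refine cd_prod_zero _ _ _ fun i hi => ?_
      have : a ≠ i := fun e => ha (e ▸ hi)
      rw [cd_mul, cd_X, hpp, hg' a i this]; simp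
    rw [cd_mul, cd_mul, h2, hQ a (by simp), hg a] at h1
    have h3 := ih (Q * h a) (fun i hi => by
      have : i ≠ a := fun e => ha (e ▸ hi)
      rw [cd_mul, hQ i (by simp [hi]), hh i a this]; simp)
    exact ((h1.congr rfl (by ring)).trans h3).congr (by ring) (by ring)

/-- Elimination of three variables against three partners with matrix `J - 2 I`. -/
lemma elim3 (hs : ∀ p q, cov p q = cov q p) (p1 p2 p3 : σ) (s1 s2 s3 l Q : MvPolynomial σ ℚ)
    (c1 c2 c3 : ℚ) (hl1 : lam p1 = 0) (hl2 : lam p2 = 0) (hl3 : lam p3 = 0)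
    (h12 : cov p1 p2 = 0) (h13 : cov p1 p3 = 0) (h23 : cov p2 p3 = 0)
    (hQ1 : cd (cov p1) Q = 0) (hQ2 : cd (cov p2) Q = 0) (hQ3 : cd (cov p3) Q = 0)
    (a11 : cd (cov p1) s1 = C (-1 / 2)) (a12 : cd (cov p1) s2 = C (1 / 2))
    (a13 : cd (cov p1) s3 = C (1 / 2))
    (a21 : cd (cov p2) s1 = C (1 / 2)) (a22 : cd (cov p2) s2 = C (-1 / 2))
    (a23 : cd (cov p2) s3 = C (1 / 2))
    (a31 : cd (cov p3) s1 = C (1 / 2)) (a32 : cd (cov p3) s2 = C (1 / 2))
    (a33 : cd (cov p3) s3 = C (-1 / 2))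
    (b1 : cd (cov p1) l = C c1) (b2 : cd (cov p2) l = C c2) (b3 : cd (cov p3) l = C c3) :
    Red cov lam 3 (Q * l * (X p1 * X p2 * X p3 * (s1 * s2 * s3)))
      (Q * (C (-1 / 4) * l + C (c1 / 2) * s1 + C (c2 / 2) * s2 + C (c3 / 2) * s3)) := by
  have e1 := Red.step hs hl1 (X p2 * (X p3 * (Q * (l * s1 * s2 * s3))))
  have e2 := Red.step hs hl2 (X p3 * (Q * cd (cov p1) (l * s1 * s2 * s3)))
  have e3 := Red.step hs hl3 (Q * cd (cov p2) (cd (cov p1) (l * s1 * s2 * s3)))
  have f1 : cd (cov p1) (X p2 * (X p3 * (Q * (l * s1 * s2 * s3))))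
      = X p2 * (X p3 * (Q * cd (cov p1) (l * s1 * s2 * s3))) := by
    rw [cd_mul _ (X p2), cd_mul _ (X p3), cd_mul _ Q, cd_X, cd_X, h12, h13, hQ1]; simp
  have f2 : cd (cov p2) (X p3 * (Q * cd (cov p1) (l * s1 * s2 * s3)))
      = X p3 * (Q * cd (cov p2) (cd (cov p1) (l * s1 * s2 * s3))) := by
    rw [cd_mul _ (X p3), cd_mul _ Q, cd_X, h23, hQ2]; simp
  rw [f1] at e1
  rw [f2] at e2
  refine ((e1.trans e2).trans e3).congr (by ring) ?_
  rw [cd_mul _ Q, hQ3, zero_mul, zero_add]
  congr 1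
  simp only [cd_mul, map_add, map_zero, cd_C, a11, a12, a13, a21, a22, a23, a31, a32, a33, b1, b2, b3]
  have q1 : (C (-1 / 2) : MvPolynomial σ ℚ) = - C (1 / 2) := by rw [← map_neg]; norm_num
  have q2 : (C (-1 / 4) : MvPolynomial σ ℚ) = - (C (1 / 2) * C (1 / 2)) := by
    rw [← map_mul, ← map_neg]; norm_num
  have q3 : ∀ c : ℚ, (C (c / 2) : MvPolynomial σ ℚ) = C c * C (1 / 2) := by
    intro c; rw [← map_mul]; congr 1; ring
  have q4 : (C (1 / 2) : MvPolynomial σ ℚ) * 2 = 1 := by
    rw [show (2 : MvPolynomial σ ℚ) = C 2 from rfl, ← map_mul]; norm_num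
  rw [q1, q2, q3 c1, q3 c2, q3 c3]
  linear_combination (C (1 / 2) * C (1 / 2) * l - C (1 / 2) * (C c1 * s1 + C c2 * s2 + C c3 * s3)) * q4

end Red

section Lin

/-- A linear form given by a list of integer coefficients and variables. -/
noncomputable def lin (L : List (ℤ × σ)) : MvPolynomial σ ℚ :=
  (L.map (fun a => C (a.1 : ℚ) * X a.2)).sum

/-- Pairing of a coefficient list with a function of the variables. -/
def pairQ (L : List (ℤ × σ)) (c : σ → ℚ) : ℚ := (L.map (fun a => (a.1 : ℚ) * c a.2)).sum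

/-- Integer version of `pairQ`. -/
def pairZ (L : List (ℤ × σ)) (c : σ → ℤ) : ℤ := (L.map (fun a => a.1 * c a.2)).sum

lemma pairQ_cast (L : List (ℤ × σ)) (c : σ → ℤ) (r : ℚ) :
    pairQ L (fun p => (c p : ℚ) * r) = (pairZ L c : ℚ) * r := by
  induction L with
  | nil => simp [pairQ, pairZ]
  | cons a L ih =>
    simp only [pairQ, pairZ, List.map_cons, List.sum_cons] at ih ⊢
    rw [ih]; push_cast; ring

lemma cd_lin (c : σ → ℚ) (L : List (ℤ × σ)) : cd c (lin L) = C (pairQ L c) := by
  induction L with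
  | nil => simp [lin, pairQ]
  | cons a L ih =>
    simp only [lin, pairQ, List.map_cons, List.sum_cons, map_add] at ih ⊢
    rw [ih, cd_mul]; simp

lemma cd_add_mul (a : ℚ) (c c' : σ → ℚ) (f : MvPolynomial σ ℚ) :
    cd (fun q => a * c q + c' q) f = C a * cd c f + cd c' f := by
  induction f using MvPolynomial.induction_on with
  | C a => simp
  | add p q hp hq => simp only [map_add, hp, hq]; ring
  | mul_X p n hp => simp only [cd_mul, cd_X, hp, map_add, map_mul]; ring

lemma cd_zero (f : MvPolynomial σ ℚ) : cd (fun _ => (0 : ℚ)) f = 0 := by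
  induction f using MvPolynomial.induction_on with
  | C a => simp
  | add p q hp hq => simp only [map_add, hp, hq, add_zero]
  | mul_X p n hp => simp [hp]

lemma stein_lin [Fintype σ] [DecidableEq σ] {cov : σ → σ → ℚ} (lam : σ → ℚ)
    (hs : ∀ p q, cov p q = cov q p) (k : ℕ) (L : List (ℤ × σ)) (f : MvPolynomial σ ℚ) :
    E cov lam k (lin L * f) = k * E cov lam (k - 1)
      (C (pairQ L lam) * f + cd (fun q => pairQ L (fun p => cov p q)) f) := by
  induction L with
  | nil => simp [lin, pairQ, cd_zero]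
  | cons a L ih =>
    simp only [lin, pairQ, List.map_cons, List.sum_cons] at ih ⊢
    rw [cd_add_mul, add_mul, map_add, ih, mul_assoc, E_C_mul, stein lam hs]
    simp only [map_add, map_mul, add_mul, mul_assoc, E_C_mul]
    ring

end Lin

end Pool.Agent.Lib.MP_d3f2bc_co
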