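import Pool.Agent.Lib.MP_d3f2bc_co.Alg

/-!
List colourings of the complement of a triangle-free graph, and their expression through `E`.
-/

set_option linter.unusedSectionVars false

namespace Pool.Agent.Lib.MP_d3f2bc_co
open MvPolynomial Finset

section Count
variable {V : Type} [Fintype V] [DecidableEq V] (adj : V → V → Prop) [DecidableRel adj]

/-- Colourings of `S` from the lists `L`, proper for the complement of `adj`, zero outside `S`. -/
def col (S : Finset V) (L : V → Finset ℕ) : Finset (V → ℕ) :=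
  (Fintype.piFinset fun v => if v ∈ S then L v else {0}).filter
    fun c => ∀ u ∈ S, ∀ w ∈ S, u ≠ w → ¬ adj u w → c u ≠ c w

variable {adj}

lemma mem_col {S : Finset V} {L : V → Finset ℕ} {c : V → ℕ} :
    c ∈ col adj S L ↔ (∀ u ∈ S, c u ∈ L u) ∧ (∀ u, u ∉ S → c u = 0) ∧
      ∀ u ∈ S, ∀ w ∈ S, u ≠ w → ¬ adj u w → c u ≠ c w := by
  simp only [col, mem_filter, Fintype.mem_piFinset]
  constructor
  · rintro ⟨h1, h2⟩
    refine ⟨fun u hu => ?_, fun u hu => ?_, h2⟩
    · simpa [hu] using h1 u
    · simpa [hu] using h1 u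
  · rintro ⟨h1, h2, h3⟩
    refine ⟨fun u => ?_, h3⟩
    by_cases hu : u ∈ S
    · simpa [hu] using h1 u hu
    · simpa [hu] using h2 u hu

lemma col_congr {S : Finset V} {L L' : V → Finset ℕ} (h : ∀ u ∈ S, L u = L' u) :
    col adj S L = col adj S L' := by
  ext c
  simp only [mem_col]
  exact and_congr_left fun _ => forall₂_congr fun u hu => by rw [h u hu]

lemma col_empty (L : V → Finset ℕ) : (col adj ∅ L).card = 1 := by
  rw [card_eq_one]
  refine ⟨fun _ => 0, ?_⟩
  ext c
  simp [mem_col, funext_iff]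

lemma col_fiber (hsym : ∀ u w, adj u w → adj w u) {S : Finset V} {L : V → Finset ℕ} {v : V}
    (hv : v ∈ S) {a : ℕ} (ha : a ∈ L v) :
    ((col adj S L).filter fun c => c v = a).card =
      (col adj (S.erase v) fun u => if adj v u then L u else (L u).erase a).card := by
  refine card_nbij' (fun c => Function.update c v 0) (fun c => Function.update c v a) ?_ ?_ ?_ ?_
  · intro c hc
    simp only [coe_filter, Set.mem_ofPred_eq, mem_col] at hc
    obtain ⟨⟨h1, h2, h3⟩, h4⟩ := hc
    simp only [mem_coe, mem_col, mem_erase]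
    refine ⟨fun u hu => ?_, fun u hu => ?_, fun u hu w hw huw hn => ?_⟩
    · rw [Function.update_of_ne hu.1]
      split_ifs with h
      · exact h1 u hu.2
      · rw [mem_erase]
        exact ⟨h4 ▸ (h3 v hv u hu.2 (Ne.symm hu.1) h).symm, h1 u hu.2⟩
    · by_cases e : u = v
      · subst e; simp
      · rw [Function.update_of_ne e]; exact h2 u (fun h => hu ⟨e, h⟩)
    · rw [Function.update_of_ne hu.1, Function.update_of_ne hw.1]
      exact h3 u hu.2 w hw.2 huw hn
  · intro c hc
    simp only [mem_coe, mem_col, mem_erase] at hc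
    obtain ⟨h1, h2, h3⟩ := hc
    simp only [coe_filter, Set.mem_ofPred_eq, mem_col, Function.update_self, and_true]
    have key : ∀ u ∈ S, u ≠ v → ¬ adj v u → c u ≠ a := by
      intro u hu huv hn
      have := h1 u ⟨huv, hu⟩
      rw [if_neg hn, mem_erase] at this
      exact this.1
    refine ⟨fun u hu => ?_, fun u hu => ?_, fun u hu w hw huw hn => ?_⟩
    · by_cases e : u = v
      · subst e; simpa using ha
      · rw [Function.update_of_ne e]
        have := h1 u ⟨e, hu⟩
        split_ifs at this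
        · exact this
        · exact mem_of_mem_erase this
    · have e : u ≠ v := fun e => hu (e ▸ hv)
      rw [Function.update_of_ne e]; exact h2 u (fun h => hu h.2)
    · by_cases e : u = v
      · subst e
        rw [Function.update_self, Function.update_of_ne (Ne.symm huw)]
        exact (key w hw (Ne.symm huw) hn).symm
      · by_cases e' : w = v
        · subst e'
          rw [Function.update_self, Function.update_of_ne e]
          exact key u hu e (fun h => hn (hsym _ _ h))
        · rw [Function.update_of_ne e, Function.update_of_ne e']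
          exact h3 u ⟨e, hu⟩ w ⟨e', hw⟩ huw hn
  · intro c hc
    simp only [coe_filter, Set.mem_ofPred_eq] at hc
    simp [← hc.2]
  · intro c hc
    simp only [mem_coe, mem_col] at hc
    simp [← hc.2.1 v (by simp)]

lemma col_F (hsym : ∀ u w, adj u w → adj w u) {S : Finset V} (L : V → Finset ℕ) {v : V}
    (hv : v ∈ S) : (col adj S L).card = ∑ a ∈ L v,
      (col adj (S.erase v) fun u => if adj v u then L u else (L u).erase a).card := by
  rw [card_eq_sum_card_fiberwise (f := fun c => c v) (t := L v)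
    (fun c hc => (mem_col.1 (mem_coe.1 hc)).1 v hv)]
  exact sum_congr rfl fun a ha => col_fiber hsym hv ha

lemma col_R (hsym : ∀ u w, adj u w → adj w u) (S : Finset V) (L : V → Finset ℕ) (a : ℕ)
    (hind : ∀ u ∈ S, ∀ w ∈ S, a ∈ L u → a ∈ L w → ¬ adj u w) :
    (col adj S L).card = (col adj S fun u => (L u).erase a).card +
      ∑ u ∈ S.filter (fun u => a ∈ L u), (col adj (S.erase u) fun w => (L w).erase a).card := by
  rw [← card_filter_add_card_filter_not (s := col adj S L) (fun c => ∀ u ∈ S, c u ≠ a)]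
  congr 1
  · congr 1
    ext c
    simp only [mem_filter, mem_col, mem_erase]
    constructor
    · rintro ⟨⟨h1, h2⟩, h3⟩
      exact ⟨fun u hu => ⟨h3 u hu, h1 u hu⟩, h2⟩
    · rintro ⟨h1, h2⟩
      exact ⟨⟨fun u hu => (h1 u hu).2, h2⟩, fun u hu => (h1 u hu).1⟩
  · have : (col adj S L).filter (fun c => ¬ ∀ u ∈ S, c u ≠ a) =
        (S.filter fun u => a ∈ L u).biUnion fun u => (col adj S L).filter fun c => c u = a := by
      ext c
      simp only [mem_filter, mem_biUnion]
      constructor
      · rintro ⟨h1, h2⟩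
        push Not at h2
        obtain ⟨u, hu, e⟩ := h2
        exact ⟨u, ⟨hu, e ▸ (mem_col.1 h1).1 u hu⟩, h1, e⟩
      · rintro ⟨u, ⟨hu, _⟩, h1, e⟩
        exact ⟨h1, fun h => h u hu e⟩
    rw [this, card_biUnion]
    · refine sum_congr rfl fun u hu => ?_
      rw [mem_filter] at hu
      rw [col_fiber hsym hu.1 hu.2]
      congr 1
      refine col_congr fun w hw => ?_
      split_ifs with h
      · rw [erase_eq_of_notMem]
        exact fun h' => hind u hu.1 w (mem_of_mem_erase hw) hu.2 h' h
      · rfl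
    · intro u hu w hw huw
      simp only [coe_filter, Set.mem_ofPred_eq] at hu hw
      refine disjoint_left.2 fun c hc hc' => ?_
      rw [mem_filter] at hc hc'
      exact (mem_col.1 hc.1).2.2 u hu.1 w hw.1 huw (hind u hu.1 w hw.1 hu.2 hw.2)
        (hc.2.trans hc'.2.symm)

lemma card_col {ι : Type} (e : ι → V) (he : Function.Injective e) (S : Finset V)
    (hS : ∀ u, u ∈ S ↔ ∃ i, e i = u) (L : V → Finset ℕ) (k : ℕ)
    (hL : ∀ u, ∀ a ∈ L u, a < k) :
    Nat.card {c : ι → Fin k // (∀ i, (c i).val ∈ L (e i)) ∧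
      ∀ i j, i ≠ j → ¬ adj (e i) (e j) → c i ≠ c j} = (col adj S L).card := by
  rw [← Nat.card_eq_finsetCard]
  symm
  refine Nat.card_eq_of_bijective (fun c => ⟨fun i => ⟨c.1 (e i),
    hL _ _ ((mem_col.1 c.2).1 _ ((hS _).2 ⟨i, rfl⟩))⟩,
    fun i => (mem_col.1 c.2).1 _ ((hS _).2 ⟨i, rfl⟩), fun i j hij hn h =>
      (mem_col.1 c.2).2.2 _ ((hS _).2 ⟨i, rfl⟩) _ ((hS _).2 ⟨j, rfl⟩) (fun h' => hij (he h')) hn
        (congrArg Fin.val h)⟩) ⟨?_, ?_⟩
  · intro c c' h
    apply Subtype.ext
    funext u
    by_cases hu : u ∈ S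
    · obtain ⟨i, rfl⟩ := (hS u).1 hu
      exact congrArg Fin.val (congrFun (congrArg Subtype.val h) i)
    · rw [(mem_col.1 c.2).2.1 u hu, (mem_col.1 c'.2).2.1 u hu]
  · rintro ⟨c, h1, h2⟩
    refine ⟨⟨Function.extend e (fun i => (c i).val) (fun _ => 0), mem_col.2 ⟨?_, ?_, ?_⟩⟩, ?_⟩
    · intro u hu
      obtain ⟨i, rfl⟩ := (hS u).1 hu
      rw [he.extend_apply]; exact h1 i
    · intro u hu
      rw [Function.extend_apply' _ _ _ (fun h => hu ((hS u).2 h))]
    · intro u hu w hw huw hn
      obtain ⟨i, rfl⟩ := (hS u).1 hu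
      obtain ⟨j, rfl⟩ := (hS w).1 hw
      rw [he.extend_apply, he.extend_apply]
      exact fun h => h2 i j (fun e' => huw (e' ▸ rfl)) hn (Fin.ext h)
    · apply Subtype.ext
      funext i
      apply Fin.ext
      simp [he.extend_apply]

end Count

section Link
variable {V σ : Type} [Fintype V] [DecidableEq V] {adj : V → V → Prop} [DecidableRel adj]

/-- The operator `1 + D`. -/
noncomputable def opD (c : σ → ℚ) : MvPolynomial σ ℚ →ₗ[ℚ] MvPolynomial σ ℚ :=
  LinearMap.id + (cd c).toLinearMap

lemma opD_apply (c : σ → ℚ) (f : MvPolynomial σ ℚ) : opD c f = f + cd c f := by simp [opD]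

/-- A model of the graph `adj` by linear forms. -/
structure Model (adj : V → V → Prop) [DecidableRel adj] (σ : Type) where
  x : V → MvPolynomial σ ℚ
  dv : V → σ → ℚ
  Ex : ℕ → MvPolynomial σ ℚ →ₗ[ℚ] ℚ
  sym : ∀ u w, adj u w → adj w u
  irr : ∀ u, ¬ adj u u
  tri : ∀ v u w, adj v u → adj v w → ¬ adj u w
  one : ∀ k, Ex k 1 = 1
  st : ∀ k v f, Ex k (x v * f) = k * Ex (k - 1) (opD (dv v) f)
  dx : ∀ v u, cd (dv v) (x u) = if adj v u then 1 else 0

variable (M : Model adj σ)

lemma Model.opD_prod (v : V) (S : Finset V) : opD (M.dv v) (∏ u ∈ S, M.x u) =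
    ∏ u ∈ S, M.x u + ∑ u ∈ S.filter (fun u => adj v u), ∏ w ∈ S.erase u, M.x w := by
  rw [opD_apply, cd_prod, sum_filter]
  congr 1
  refine sum_congr rfl fun u _ => ?_
  rw [M.dx]; split_ifs <;> simp

lemma Model.col_extra (K : Finset ℕ)
    (hK : ∀ S : Finset V, ((col adj S fun _ => K).card : ℚ) = M.Ex K.card (∏ u ∈ S, M.x u))
    (v : V) (A : Finset ℕ) (hA : Disjoint A K) (S : Finset V) :
    ((col adj S fun u => if adj v u then A ∪ K else K).card : ℚ) =
      M.Ex K.card ((opD (M.dv v) ^ A.card) (∏ u ∈ S, M.x u)) := by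
  induction A using Finset.induction_on generalizing S with
  | empty => simpa using hK S
  | insert a A ha ih =>
    rw [disjoint_insert_left] at hA
    have hmem : ∀ u, a ∈ (if adj v u then insert a A ∪ K else K) ↔ adj v u := by
      intro u; split_ifs with h <;> simp [h, hA.1]
    have her : ∀ u, (if adj v u then insert a A ∪ K else K).erase a
        = if adj v u then A ∪ K else K := by
      intro u
      split_ifs with h
      · rw [insert_union, erase_insert (by simp [ha, hA.1])]
      · exact erase_eq_of_notMem hA.1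
    rw [col_R M.sym S _ a (fun u _ w _ hu hw => M.tri v u w ((hmem u).1 hu) ((hmem w).1 hw))]
    simp only [hmem, her]
    push_cast
    rw [card_insert_of_notMem ha, pow_succ, Module.End.mul_apply, M.opD_prod, map_add, map_add,
      map_sum, map_sum, ih hA.2]
    congr 1
    exact sum_congr rfl fun u _ => ih hA.2 _

lemma Model.col_const (K : Finset ℕ) (S : Finset V) :
    ((col adj S fun _ => K).card : ℚ) = M.Ex K.card (∏ u ∈ S, M.x u) := by
  induction K using Finset.strongInduction generalizing S with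
  | H K ih =>
    rcases S.eq_empty_or_nonempty with rfl | ⟨v, hv⟩
    · simp [col_empty, M.one]
    · rw [col_F M.sym _ hv, ← mul_prod_erase S _ hv, M.st]
      push_cast
      rw [sum_congr rfl (g := fun _ => M.Ex (K.card - 1) (opD (M.dv v) (∏ u ∈ S.erase v, M.x u)))]
      · simp
      · intro a ha
        have := M.col_extra (K.erase a) (ih _ (erase_ssubset ha)) v {a} (by simp) (S.erase v)
        rw [card_erase_of_mem ha, card_singleton, pow_one, ← insert_eq, insert_erase ha] at this
        exact this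

/-- Values of `Ex` on `f` are polynomial in the number of colours. -/
def Model.IsPoly (f : MvPolynomial σ ℚ) : Prop :=
  ∃ P : Polynomial ℚ, ∀ k : ℕ, M.Ex k f = P.eval (k : ℚ)

lemma Model.IsPoly.add {f g : MvPolynomial σ ℚ} (hf : M.IsPoly f) (hg : M.IsPoly g) :
    M.IsPoly (f + g) := by
  obtain ⟨P, hP⟩ := hf
  obtain ⟨Q, hQ⟩ := hg
  exact ⟨P + Q, fun k => by simp [hP, hQ]⟩

lemma Model.IsPoly.sum {ι : Type} (s : Finset ι) (f : ι → MvPolynomial σ ℚ)
    (h : ∀ i ∈ s, M.IsPoly (f i)) : M.IsPoly (∑ i ∈ s, f i) := by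
  classical
  induction s using Finset.induction_on with
  | empty => exact ⟨0, fun k => by simp⟩
  | insert a s ha ih =>
    rw [sum_insert ha]
    exact Model.IsPoly.add M (h a (by simp)) (ih fun i hi => h i (by simp [hi]))

lemma Model.isPoly_prod (S : Finset V) : M.IsPoly (∏ u ∈ S, M.x u) := by
  induction S using Finset.strongInduction with
  | H S ih =>
    rcases S.eq_empty_or_nonempty with rfl | ⟨v, hv⟩
    · exact ⟨1, fun k => by simp [M.one]⟩
    · have : M.IsPoly (opD (M.dv v) (∏ u ∈ S.erase v, M.x u)) := by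
        rw [M.opD_prod]
        refine Model.IsPoly.add M (ih _ (erase_ssubset hv)) (Model.IsPoly.sum M _ _ fun u _ => ?_)
        exact ih _ (lt_of_le_of_lt (erase_subset _ _) (erase_ssubset hv))
      obtain ⟨P, hP⟩ := this
      refine ⟨Polynomial.X * P.comp (Polynomial.X - 1), fun k => ?_⟩
      rw [← mul_prod_erase S _ hv, M.st, hP]
      cases k with
      | zero => simp
      | succ k => simp [Polynomial.eval_comp]

lemma Model.isPoly_op (v : V) (j : ℕ) (S : Finset V) :
    M.IsPoly ((opD (M.dv v) ^ j) (∏ u ∈ S, M.x u)) := by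
  induction j generalizing S with
  | zero => simpa using M.isPoly_prod S
  | succ j ih =>
    rw [pow_succ, Module.End.mul_apply, M.opD_prod, map_add, map_sum]
    exact Model.IsPoly.add M (ih _) (Model.IsPoly.sum M _ _ fun u _ => ih _)

/-- Doubling a vertex. -/
lemma Model.double (v : V) (k : ℕ) : M.Ex (k + 2) (M.x v * ∏ u, M.x u) =
    ((k : ℚ) + 2) * (k + 1) * M.Ex k ((opD (M.dv v) ^ 2) (∏ u ∈ univ.erase v, M.x u)) := by
  rw [M.st, ← mul_prod_erase univ _ (mem_univ v)]
  have : ∀ f, opD (M.dv v) (M.x v * f) = M.x v * opD (M.dv v) f := by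
    intro f
    rw [opD_apply, opD_apply, cd_mul, M.dx, if_neg (M.irr v)]; ring
  rw [this, M.st, pow_two, Module.End.mul_apply]
  simp only [Nat.add_succ_sub_one, Nat.add_sub_cancel]
  push_cast; ring

/-- Proper colourings of the complement. -/
lemma Model.chrom (k : ℕ) :
    (Nat.card {c : V → Fin k // ∀ u w, u ≠ w ∧ ¬ adj u w → c u ≠ c w} : ℚ) =
      M.Ex k (∏ u, M.x u) := by
  have h := card_col (adj := adj) (fun u : V => u) (fun _ _ h => h) univ (by simp)
    (fun _ => range k) k (by simp)
  have h2 := M.col_const (range k) univ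
  rw [card_range, ← h] at h2
  rw [← h2]
  congr 2
  simp

/-- Restrained colourings of the complement with a vertex removed. -/
lemma Model.rho (v : V) (k : ℕ) :
    (Nat.card {c : {u // u ≠ v} → Fin (k + 2) //
      (∀ u w : {u // u ≠ v}, u.1 ≠ w.1 ∧ ¬ adj u.1 w.1 → c u ≠ c w) ∧
        ∀ u : {u // u ≠ v}, v ≠ u.1 ∧ ¬ adj v u.1 → 2 ≤ (c u).val} : ℚ) =
      M.Ex k ((opD (M.dv v) ^ 2) (∏ u ∈ univ.erase v, M.x u)) := by
  have h := card_col (adj := adj) (fun u : {u // u ≠ v} => u.1) Subtype.val_injective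
    (univ.erase v) (by simp) (fun u => if adj v u then range 2 ∪ Ico 2 (k + 2) else Ico 2 (k + 2))
    (k + 2) (by
      intro u a ha
      split_ifs at ha
      · simp only [mem_union, mem_range, mem_Ico] at ha; omega
      · simp only [mem_Ico] at ha; omega)
  have h2 := M.col_extra (Ico 2 (k + 2)) (M.col_const _) v (range 2)
    (by rw [disjoint_left]; intro a h1 h2; simp only [mem_range, mem_Ico] at h1 h2; omega)
    (univ.erase v)
  rw [card_range, Nat.card_Ico, Nat.add_sub_cancel, ← h] at h2
  rw [← h2]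
  congr 3
  ext c
  rw [and_comm]
  refine and_congr (forall_congr' fun u => ?_) (forall₂_congr fun u w => ?_)
  · have := (c u).2
    have hu : v ≠ u.1 := Ne.symm u.2
    by_cases ha : adj v u.1
    · simp only [ha, if_true, mem_union, mem_range, mem_Ico, not_true, and_false, false_imp_iff,
        true_iff]
      omega
    · simp [ha, hu, this]
  · simp [Subtype.ext_iff]

end Link

end Pool.Agent.Lib.MP_d3f2bc_co
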