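import Pool.Agent.Lib.MP_d3f2bc_co.Alg

/-!
The finite data of the two graphs on 96 vertices, and the finite checks.
-/

namespace Pool.Agent.Lib.MP_d3f2bc_co

/-- Basic variables: unit and kind. -/
abbrev Va := Fin 12 × Fin 8

/-- Vertices: unit, class and sign. -/
abbrev Vx := Fin 12 × Fin 4 × Bool

def tA (i : ℕ) : ℕ := 3 * ((i / 3 + 2) % 4) + 1

def tB (i : ℕ) : ℕ := 3 * ((i / 3 + 2) % 4)

def ind (a b : ℕ) : ℤ := if a = b then 1 else 0

def hZ (s : Bool) (i t j t' : ℕ) : ℤ :=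
  if t = 0 then (if t' = 0 then ind (j / 3) ((i / 3 + 1) % 4) else 0)
  else if t = 1 then
    (if t' = 0 then ind (j / 3) ((i / 3 + 1) % 4) * (if i % 3 = j % 3 then -1 else 1) else 0)
  else if t = 4 then
    (if t' = 0 then ind j i + ind j (tA i) else if t' = 1 then ind j (tA i) else 0)
  else if t = 5 then (if t' = 2 then ind j i else 0)
  else if t = 6 then
    (if t' = 0 then ind j i + ind j (tB i) else if t' = 1 then ind j (tB i)
      else if t' = 4 then ind j ((i + 1) % 12) else 0)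
  else if t = 7 then
    (if t' = 3 then ind j i
      else if t' = 5 then ind j ((i + 1) % 12) * (if s = true ∧ i = 11 then -1 else 1) else 0)
  else 0

def CovZ (s : Bool) (p q : Va) : ℤ :=
  hZ s p.1.val p.2.val q.1.val q.2.val + hZ s q.1.val q.2.val p.1.val p.2.val

def lamZ (p : Va) : ℤ := if p.2.val = 0 ∨ p.2.val = 4 ∨ p.2.val = 6 then 1 else 0

def sgn (b : Bool) : ℤ := if b = true then -1 else 1

/-- Even part of the linear form of a vertex. -/
def ev (i : Fin 12) (c : Fin 4) : List (ℤ × Va) :=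
  if c = 0 then [(1, (i, 0)), (-1, (i, 1))]
  else if c = 1 then [(1, (i, 0)), (1, (i, 1))]
  else if c = 2 then [(1, (i, 4))] else [(1, (i, 6))]

/-- Odd part of the linear form of a vertex. -/
def od (i : Fin 12) (c : Fin 4) (e : Bool) : List (ℤ × Va) :=
  if c = 0 then [(sgn e, (i, 2)), (sgn e, (i, 3))]
  else if c = 1 then [(sgn e, (i, 2)), (-sgn e, (i, 3))]
  else if c = 2 then [(sgn e, (i, 5))] else [(sgn e, (i, 7))]

def fm (v : Vx) : List (ℤ × Va) := ev v.1 v.2.1 ++ od v.1 v.2.1 v.2.2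

def betaZ (s : Bool) (v u : Vx) : ℤ := pairZ (fm u) fun q => pairZ (fm v) fun p => CovZ s p q

def q0 (i t j t' : ℕ) : Bool :=
  if t' = 0 then
    (if t = 0 then j / 3 == (i / 3 + 1) % 4
      else if t = 1 then j == i || j == tA i else j == i || j == tB i)
  else t' == 1 && t == 2 && j == (i + 1) % 12

def qadj (i : Fin 12) (t : Fin 3) (j : Fin 12) (t' : Fin 3) : Bool :=
  q0 i.val t.val j.val t'.val || q0 j.val t'.val i.val t.val

def ty (c : Fin 4) : Fin 3 := if c = 2 then 1 else if c = 3 then 2 else 0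

def chk (b : ℤ) (q : Bool) : Bool := b == 0 || (b == 2 && q)

lemma beta_chk0 : ∀ (i : Fin 12) (c : Fin 4) (e : Bool) (j : Fin 12) (c' : Fin 4) (e' : Bool),
    chk (betaZ false (i, c, e) (j, c', e')) (qadj i (ty c) j (ty c')) = true := by
  decide +kernel

lemma beta_chk1 : ∀ (i : Fin 12) (c : Fin 4) (e : Bool) (j : Fin 12) (c' : Fin 4) (e' : Bool),
    chk (betaZ true (i, c, e) (j, c', e')) (qadj i (ty c) j (ty c')) = true := by
  decide +kernel

lemma q_tri : ∀ (i : Fin 12) (t : Fin 3) (j : Fin 12) (t' : Fin 3), qadj i t j t' = true →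
    ∀ (l : Fin 12) (t'' : Fin 3), qadj i t l t'' = true → qadj j t' l t'' = false := by
  decide +kernel

lemma lam_fm : ∀ (i : Fin 12) (c : Fin 4) (e : Bool), pairZ (fm (i, c, e)) lamZ = 1 := by
  decide +kernel

lemma lam_ev : ∀ (i : Fin 12) (c : Fin 4), pairZ (ev i c) lamZ = 1 := by
  decide +kernel

/-- Signs: `a` acts on kinds 2 and 5, `b` on kinds 3 and 7. -/
def epsZ (a b : Fin 12 → Bool) (p : Va) : ℤ :=
  if p.2 = 2 ∨ p.2 = 5 then sgn (a p.1) else if p.2 = 3 ∨ p.2 = 7 then sgn (b p.1) else 1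

lemma cov_tau : ∀ (s : Bool) (i : Fin 12) (t : Fin 8) (j : Fin 12) (t' : Fin 8),
    hZ s i.val t.val j.val t'.val = epsZ (fun _ => true) (fun _ => true) (i, t) *
      epsZ (fun _ => true) (fun _ => true) (j, t') * hZ s i.val t.val j.val t'.val := by
  decide +kernel

lemma cov_theta : ∀ (i : Fin 12) (t : Fin 8) (j : Fin 12) (t' : Fin 8),
    hZ true i.val t.val j.val t'.val = epsZ (fun _ => false) (fun l => l == 11) (i, t) *
      epsZ (fun _ => false) (fun l => l == 11) (j, t') * hZ false i.val t.val j.val t'.val := by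
  decide +kernel

lemma cov_phi : ∀ (m : Fin 12) (i : Fin 12) (t : Fin 8) (j : Fin 12) (t' : Fin 8),
    hZ false i.val t.val j.val t'.val = epsZ (fun l => l == m + 1) (fun l => l == m) (i, t) *
      epsZ (fun l => l == m + 1) (fun l => l == m) (j, t') *
        hZ false i.val t.val j.val t'.val := by
  decide +kernel

lemma cov2 : ∀ (i j : Fin 12) (t : Fin 8),
    CovZ false (i, 2) (j, t) = if j = i ∧ t = 5 then 1 else 0 := by
  decide +kernel

lemma cov3 : ∀ (i j : Fin 12) (t : Fin 8),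
    CovZ false (i, 3) (j, t) = if j = i ∧ t = 7 then 1 else 0 := by
  decide +kernel

lemma cov7 : ∀ (i j : Fin 12) (t : Fin 8), CovZ false (i, 7) (j, t) =
    if (j = i ∧ t = 3) ∨ (j = i + 1 ∧ t = 5) then 1 else 0 := by
  decide +kernel

/-- Unit number `a` of layer `m`. -/
def un (m : Fin 4) (a : Fin 3) : Fin 12 := ⟨3 * m.val + a.val, by omega⟩

lemma cov11 : ∀ i j : Fin 12, CovZ false (i, 1) (j, 1) = 0 := by decide +kernel

lemma cov10 : ∀ (m m' : Fin 4) (a b : Fin 3), CovZ false (un m a, 1) (un (m' + 1) b, 0) =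
    if m = m' then (if a = b then -1 else 1) else 0 := by
  decide +kernel

lemma ev_u : ∀ (i : Fin 12) (c : Fin 4) (j : Fin 12), pairZ (ev i c) (CovZ false (j, 2)) = 0 ∧
    pairZ (ev i c) (CovZ false (j, 3)) = 0 ∧ pairZ (ev i c) (CovZ false (j, 7)) = 0 := by
  decide +kernel

lemma ev_d : ∀ (i : Fin 12) (c : Fin 4),
    ∑ m : Fin 4, ∑ a : Fin 3, pairZ (ev i c) (CovZ false (un m a, 1)) = 1 := by
  decide +kernel

end Pool.Agent.Lib.MP_d3f2bc_co
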