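import Pool.Agent.Lib.MP_d3f2bc_co.Alg

/-!
Elimination of all layers.
-/

namespace Pool.Agent.Lib.MP_d3f2bc_co
open MvPolynomial

variable {σ : Type} [Fintype σ] [DecidableEq σ] {cov : σ → σ → ℚ} {lam : σ → ℚ}

lemma elimL {ι : Type} [DecidableEq ι] (hs : ∀ p q, cov p q = cov q p) (p : ι → Fin 3 → σ)
    (s : ι → Fin 3 → MvPolynomial σ ℚ) (c : ι → Fin 3 → ℚ) (hl : ∀ m a, lam (p m a) = 0)
    (hpp : ∀ m a m' b, cov (p m a) (p m' b) = 0)
    (hps : ∀ m a b, cd (cov (p m a)) (s m b) = if a = b then C (-1 / 2) else C (1 / 2))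
    (hps' : ∀ m a m' b, m ≠ m' → cd (cov (p m a)) (s m' b) = 0) (S : Finset ι)
    (r : ℚ) (l : MvPolynomial σ ℚ) (hlc : ∀ m ∈ S, ∀ a, cd (cov (p m a)) l = C (c m a)) :
    Red cov lam (3 * S.card)
      (C r * l * ∏ m ∈ S, (X (p m 0) * X (p m 1) * X (p m 2) * (s m 0 * s m 1 * s m 2)))
      (C (r * (-1 / 4) ^ S.card) * (l - ∑ m ∈ S, ∑ a, C (2 * c m a) * s m a)) := by
  induction S using Finset.induction_on generalizing r l with
  | empty => simpa using Red.refl _
  | insert m S hm ih =>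
    rw [Finset.card_insert_of_notMem hm, Finset.prod_insert hm, Finset.sum_insert hm, mul_add,
      add_comm]
    have hQ : ∀ a, cd (cov (p m a)) (C r * ∏ m ∈ S,
        (X (p m 0) * X (p m 1) * X (p m 2) * (s m 0 * s m 1 * s m 2))) = 0 := by
      intro a
      rw [cd_mul, cd_C, cd_prod_zero]
      · simp
      · intro i hi
        have : m ≠ i := fun e => hm (e ▸ hi)
        simp only [cd_mul, cd_X, hpp, hps' m a i _ this]; simp
    have h1 := elim3 (lam := lam) hs (p m 0) (p m 1) (p m 2) (s m 0) (s m 1) (s m 2) l _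
      (c m 0) (c m 1) (c m 2) (hl _ _) (hl _ _) (hl _ _) (hpp _ _ _ _) (hpp _ _ _ _)
      (hpp _ _ _ _) (hQ 0) (hQ 1) (hQ 2) (by simp [hps]) (by simp [hps]) (by simp [hps])
      (by simp [hps]) (by simp [hps]) (by simp [hps]) (by simp [hps]) (by simp [hps])
      (by simp [hps]) (hlc m (by simp) 0) (hlc m (by simp) 1) (hlc m (by simp) 2)
    have h2 := ih (r * (-1 / 4)) (l - ∑ a, C (2 * c m a) * s m a) (by
      intro i hi a
      have : i ≠ m := fun e => hm (e ▸ hi)
      rw [map_sub, hlc i (by simp [hi]), map_sum, Finset.sum_eq_zero, sub_zero]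
      intro b _
      rw [cd_mul, cd_C, hps' i a m b this]; simp)
    refine ((h1.congr (by ring) ?_).trans h2).congr rfl ?_
    · have q : ∀ x : ℚ, (C (x / 2) : MvPolynomial σ ℚ) = - (C (-1 / 4) * C (2 * x)) := by
        intro x; rw [← map_mul, ← map_neg]; congr 1; ring
      rw [Fin.sum_univ_three, q (c m 0), q (c m 1), q (c m 2), map_mul]; ring
    · rw [pow_succ', ← mul_assoc, sub_sub]

end Pool.Agent.Lib.MP_d3f2bc_co
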