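import Pool.Agent.Lib.MP_d3f2bc_co.Col
import Pool.Agent.Lib.MP_d3f2bc_co.Data
import Pool.Agent.Lib.MP_d3f2bc_co.Layer

/-!
The two graphs and the comparison of their functionals.
-/

namespace Pool.Agent.Lib.MP_d3f2bc_co
open MvPolynomial Finset

abbrev Rg := MvPolynomial Va ℚ

def cov (s : Bool) (p q : Va) : ℚ := (CovZ s p q : ℚ) * (1 / 2)

def lam (p : Va) : ℚ := (lamZ p : ℚ)

lemma CovZ_symm (s : Bool) (p q : Va) : CovZ s p q = CovZ s q p := add_comm _ _

lemma cov_symm (s : Bool) (p q : Va) : cov s p q = cov s q p := by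
  rw [cov, cov, CovZ_symm]

lemma pairQ_lam (L : List (ℤ × Va)) : pairQ L lam = (pairZ L lamZ : ℚ) := by
  have := pairQ_cast L lamZ 1
  simp only [mul_one] at this
  exact this

lemma pairZ_add_mul {σ : Type} (L : List (ℤ × σ)) (a : ℤ) (c c' : σ → ℤ) :
    pairZ L (fun p => a * c p + c' p) = a * pairZ L c + pairZ L c' := by
  induction L with
  | nil => simp [pairZ]
  | cons b L ih =>
    simp only [pairZ, List.map_cons, List.sum_cons] at ih ⊢
    rw [ih]; ring

lemma pairZ_swap {σ : Type} (L L' : List (ℤ × σ)) (c : σ → σ → ℤ) :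
    pairZ L' (fun q => pairZ L fun p => c p q) = pairZ L (fun p => pairZ L' fun q => c p q) := by
  induction L with
  | nil => simp [pairZ]
  | cons b L ih =>
    have : ∀ c : σ → ℤ, pairZ (b :: L) c = b.1 * c b.2 + pairZ L c := fun c => by simp [pairZ]
    simp only [this]
    rw [pairZ_add_mul, ih]

lemma betaZ_symm (s : Bool) (v u : Vx) : betaZ s v u = betaZ s u v := by
  rw [betaZ, betaZ, pairZ_swap]
  simp only [CovZ_symm s]

/-- Adjacency in the complement graph. -/
def adj (s : Bool) (v u : Vx) : Prop := betaZ s v u = 2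

instance (s : Bool) : DecidableRel (adj s) := fun _ _ => inferInstanceAs (Decidable (_ = _))

lemma beta_cases (s : Bool) (v u : Vx) : betaZ s v u = 0 ∨
    (betaZ s v u = 2 ∧ qadj v.1 (ty v.2.1) u.1 (ty u.2.1) = true) := by
  have : chk (betaZ s v u) (qadj v.1 (ty v.2.1) u.1 (ty u.2.1)) = true := by
    cases s
    · exact beta_chk0 _ _ _ _ _ _
    · exact beta_chk1 _ _ _ _ _ _
  simpa [chk] using this

lemma adj_q {s : Bool} {v u : Vx} (h : adj s v u) : qadj v.1 (ty v.2.1) u.1 (ty u.2.1) = true := by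
  rcases beta_cases s v u with h' | h'
  · rw [adj, h'] at h; omega
  · exact h'.2

lemma adj_tri (s : Bool) (v u w : Vx) (h1 : adj s v u) (h2 : adj s v w) : ¬ adj s u w := by
  intro h3
  have := q_tri _ _ _ _ (adj_q h1) _ _ (adj_q h2)
  rw [adj_q h3] at this
  exact Bool.noConfusion this

/-- The model of the graph `adj s`. -/
noncomputable def model (s : Bool) : Model (adj s) Va where
  x v := lin (fm v)
  dv v := fun q => pairQ (fm v) fun p => cov s p q
  Ex := E (cov s) lam
  sym u w h := by rwa [adj, betaZ_symm]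
  irr u h := adj_tri s u u u h h h
  tri := adj_tri s
  one := E_one lam
  st k v f := by
    rw [stein_lin lam (cov_symm s), opD_apply, pairQ_lam, lam_fm v.1 v.2.1 v.2.2]; simp
  dx v u := by
    rw [cd_lin]
    simp only [cov, pairQ_cast]
    change C ((betaZ s v u : ℚ) * (1 / 2)) = _
    rcases beta_cases s v u with h | h
    · rw [if_neg (by rw [adj, h]; omega), h]; simp
    · rw [if_pos (show adj s v u from h.1), h.1]; simp

/-- The top part of the product over a unit. -/
noncomputable def Od (i : Fin 12) : Rg :=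
  X (i, 0) * X (i, 1) * X (i, 2) * X (i, 3) * (X (i, 4) ^ 2 - X (i, 5) ^ 2) *
    (X (i, 6) ^ 2 - X (i, 7) ^ 2)

/-- The even part of the product over a unit. -/
noncomputable def Ev (i : Fin 12) : Rg :=
  ((X (i, 0) ^ 2 - X (i, 1) ^ 2) ^ 2 - 2 * (X (i, 0) ^ 2 + X (i, 1) ^ 2) *
    (X (i, 2) ^ 2 + X (i, 3) ^ 2) + (X (i, 2) ^ 2 - X (i, 3) ^ 2) ^ 2) *
      (X (i, 4) ^ 2 - X (i, 5) ^ 2) * (X (i, 6) ^ 2 - X (i, 7) ^ 2)

lemma prod_x : ∏ v : Vx, lin (fm v) = ∏ i, (C (-8) * Od i + Ev i) := by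
  rw [Fintype.prod_prod_type]
  refine prod_congr rfl fun i _ => ?_
  have : (C (-8) : Rg) = -8 := by rw [map_neg]; rfl
  rw [Fintype.prod_prod_type, Fin.prod_univ_four, this]
  simp [lin, fm, ev, od, sgn, Od, Ev]
  ring

def eps (a b : Fin 12 → Bool) (p : Va) : ℚ := (epsZ a b p : ℚ)

lemma eps_lam (a b : Fin 12 → Bool) (p : Va) : eps a b p * lam p = lam p := by
  obtain ⟨i, t⟩ := p
  fin_cases t <;> simp [eps, epsZ, lam, lamZ]

lemma E_eps {s1 s2 : Bool} {a b : Fin 12 → Bool}
    (h : ∀ (i : Fin 12) (t : Fin 8) (j : Fin 12) (t' : Fin 8), hZ s2 i.val t.val j.val t'.val =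
      epsZ a b (i, t) * epsZ a b (j, t') * hZ s1 i.val t.val j.val t'.val) (k : ℕ) (f : Rg) :
    E (cov s2) lam k f = E (cov s1) lam k (sg (eps a b) f) := by
  refine E_sg lam _ (cov_symm s1) (cov_symm s2) (fun p q => ?_) (eps_lam a b) k f
  rw [cov, cov, CovZ, CovZ, h p.1 p.2 q.1 q.2, h q.1 q.2 p.1 p.2, eps, eps]
  push_cast; ring

lemma sg_Od (a b : Fin 12 → Bool) (i : Fin 12) :
    sg (eps a b) (Od i) = C ((sgn (a i) : ℚ) * sgn (b i)) * Od i := by
  cases ha : a i <;> cases hb : b i <;> simp [Od, eps, epsZ, sgn, ha, hb]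

lemma sg_Ev (a b : Fin 12 → Bool) (i : Fin 12) : sg (eps a b) (Ev i) = Ev i := by
  have : sg (eps a b) 2 = 2 := map_ofNat _ 2
  cases ha : a i <;> cases hb : b i <;> simp [Ev, eps, epsZ, sgn, ha, hb, this]

lemma sg_ev (a b : Fin 12 → Bool) (i : Fin 12) (c : Fin 4) :
    sg (eps a b) (lin (ev i c)) = lin (ev i c) := by
  fin_cases c <;> simp [lin, ev, eps, epsZ]

lemma sg_od (i : Fin 12) (c : Fin 4) (e : Bool) :
    sg (eps (fun _ => true) (fun _ => true)) (lin (od i c e)) = - lin (od i c e) := by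
  fin_cases c <;> cases e <;> simp [lin, od, eps, epsZ, sgn] <;> ring

lemma E_fm (s : Bool) (k : ℕ) (v : Vx) :
    E (cov s) lam k (lin (fm v) * ∏ i, (C (-8) * Od i + Ev i)) =
      E (cov s) lam k (lin (ev v.1 v.2.1) * ∏ i, (C (-8) * Od i + Ev i)) := by
  have h0 : lin (fm v) = lin (ev v.1 v.2.1) + lin (od v.1 v.2.1 v.2.2) := by simp [lin, fm]
  have h1 := E_eps (cov_tau s) k (lin (od v.1 v.2.1 v.2.2) * ∏ i, (C (-8) * Od i + Ev i))
  rw [map_mul (sg _), sg_od, map_prod (sg _)] at h1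
  simp only [map_add, map_mul, sg_C, sg_Od, sg_Ev, sgn] at h1
  simp only [if_true, Int.cast_neg, Int.cast_one, map_neg, map_one, neg_mul, mul_neg, neg_neg,
    one_mul] at h1
  rw [h0, add_mul, map_add]
  simp only [map_neg, neg_mul]
  linarith

/-- One term of the expansion. -/
noncomputable def term (F : Rg) (S : Finset (Fin 12)) : Rg :=
  F * ((∏ i ∈ S, C (-8) * Od i) * ∏ i ∈ Sᶜ, Ev i)

lemma sg_term (a b : Fin 12 → Bool) (F : Rg) (hF : sg (eps a b) F = F) (S : Finset (Fin 12)) :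
    sg (eps a b) (term F S) =
      C ((∏ i ∈ S, (sgn (a i) : ℚ)) * ∏ i ∈ S, (sgn (b i) : ℚ)) * term F S := by
  simp only [term, map_mul, map_prod, hF, sg_C, sg_Od, sg_Ev, prod_mul_distrib]
  ring

lemma prod_sgn (S : Finset (Fin 12)) (m : Fin 12) :
    ∏ i ∈ S, (sgn (i == m) : ℚ) = if m ∈ S then -1 else 1 := by
  rw [← prod_ite_eq' S m (fun _ => (-1 : ℚ))]
  refine prod_congr rfl fun i _ => ?_
  by_cases h : i = m <;> simp [sgn, h]

lemma E_diff (F : Rg) (hF : ∀ a b, sg (eps a b) F = F) (k : ℕ) :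
    E (cov false) lam k (F * ∏ i, (C (-8) * Od i + Ev i)) -
      E (cov true) lam k (F * ∏ i, (C (-8) * Od i + Ev i)) =
        2 * (-8) ^ 12 * E (cov false) lam k (F * ∏ i, Od i) := by
  rw [Fintype.prod_add, mul_sum, map_sum, map_sum, ← sum_sub_distrib]
  change ∑ S, (E (cov false) lam k (term F S) - E (cov true) lam k (term F S)) = _
  have h1 : ∀ S, E (cov true) lam k (term F S) =
      (if (11 : Fin 12) ∈ S then -1 else 1) * E (cov false) lam k (term F S) := by
    intro S
    rw [E_eps cov_theta, sg_term _ _ F (hF _ _), E_C_mul, prod_sgn]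
    simp [sgn]
  rw [sum_eq_single univ]
  · rw [h1, if_pos (mem_univ _), term, prod_mul_distrib, prod_const, ← map_pow]
    simp only [compl_univ, prod_empty, mul_one, card_univ, Fintype.card_fin]
    rw [mul_left_comm, E_C_mul]; ring
  · intro S _ hS
    rw [h1]
    split_ifs with h
    · have : ∃ m : Fin 12, m ∉ S ∧ m + 1 ∈ S := by
        by_contra hc
        push Not at hc
        have g : ∀ m : Fin 12, m + 1 ∈ S → m ∈ S := fun m hm => by_contra fun h' => hc m h' hm
        have g10 := g 10 h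
        have g9 := g 9 g10
        have g8 := g 8 g9
        have g7 := g 7 g8
        have g6 := g 6 g7
        have g5 := g 5 g6
        have g4 := g 4 g5
        have g3 := g 3 g4
        have g2 := g 2 g3
        have g1 := g 1 g2
        have g0 := g 0 g1
        refine hS (eq_univ_of_forall fun i => ?_)
        fin_cases i <;> assumption
      obtain ⟨m, hm, hm'⟩ := this
      have h2 := E_eps (cov_phi m) k (term F S)
      rw [sg_term _ _ F (hF _ _), E_C_mul, prod_sgn, prod_sgn, if_pos hm', if_neg hm] at h2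
      linarith
    · ring
  · simp

lemma half_two : (C (1 / 2) : Rg) * 2 = 1 := by
  rw [show (2 : Rg) = C 2 from rfl, ← map_mul]; norm_num

lemma prod12 (f : Fin 12 → Rg) : ∏ i, f i = ∏ m : Fin 4, f (un m 0) * f (un m 1) * f (un m 2) := by
  simp only [Fin.prod_univ_succ, Fin.prod_univ_zero, mul_one, mul_assoc]
  rfl

lemma red1 (F : Rg) (h2 : ∀ i, cd (cov false (i, 2)) F = 0) :
    Red (cov false) lam 12 (F * ∏ i, Od i) (F * ∏ i : Fin 12,
      (X (i, 0) * X (i, 1) * - X (i, 5) * (X (i, 3) * (X (i, 6) ^ 2 - X (i, 7) ^ 2)))) := by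
  have r1 := elim (lam := lam) (cov_symm false) (fun i : Fin 12 => ((i, 2) : Va))
    (fun i => X (i, 4) ^ 2 - X (i, 5) ^ 2) (fun i => - X (i, 5)) (fun i => by simp [lam, lamZ])
    (fun i j => by simp [cov, cov2])
    (fun i => by
      simp only [pow_two, map_sub, cd_mul, cd_X, cov, cov2]
      simp only [Fin.reduceEq, and_false, and_true, if_true, if_false, Int.cast_zero,
        Int.cast_one, zero_mul, one_mul, map_zero]
      linear_combination (- X (i, 5)) * half_two)
    (fun i j hij => by simp [pow_two, cov, cov2, hij.symm])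
    (fun i j hij => by simp [cov, cov2, hij.symm]) univ
    (F * ∏ i, (X (i, 0) * X (i, 1) * X (i, 3) * (X (i, 6) ^ 2 - X (i, 7) ^ 2)))
    (fun i _ => by
      rw [cd_mul, h2, cd_prod_zero]
      · simp
      · intro j _; simp [pow_two, cov, cov2])
  rw [card_univ, Fintype.card_fin] at r1
  refine r1.congr ?_ ?_
  · rw [mul_assoc F, ← prod_mul_distrib]
    exact congrArg (F * ·) (prod_congr rfl fun i _ => by rw [Od]; ring)
  · rw [mul_assoc F, ← prod_mul_distrib]
    exact congrArg (F * ·) (prod_congr rfl fun i _ => by ring)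

lemma red2 (F : Rg) (h3 : ∀ i, cd (cov false (i, 3)) F = 0) :
    Red (cov false) lam 12 (F * ∏ i : Fin 12,
      (X (i, 0) * X (i, 1) * - X (i, 5) * (X (i, 3) * (X (i, 6) ^ 2 - X (i, 7) ^ 2))))
      (F * ∏ i : Fin 12, (X (i, 0) * X (i, 1) * (X (i, 7) * X (i, 5)))) := by
  have r2 := elim (lam := lam) (cov_symm false) (fun i : Fin 12 => ((i, 3) : Va))
    (fun i => X (i, 6) ^ 2 - X (i, 7) ^ 2) (fun i => - X (i, 7)) (fun i => by simp [lam, lamZ])
    (fun i j => by simp [cov, cov3])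
    (fun i => by
      simp only [pow_two, map_sub, cd_mul, cd_X, cov, cov3]
      simp only [Fin.reduceEq, and_false, and_true, if_true, if_false, Int.cast_zero,
        Int.cast_one, zero_mul, one_mul, map_zero]
      linear_combination (- X (i, 7)) * half_two)
    (fun i j hij => by simp [pow_two, cov, cov3, hij.symm])
    (fun i j hij => by simp [cov, cov3, hij.symm]) univ
    (F * ∏ i, (X (i, 0) * X (i, 1) * - X (i, 5)))
    (fun i _ => by
      rw [cd_mul, h3, cd_prod_zero]
      · simp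
      · intro j _; simp [cov, cov3])
  rw [card_univ, Fintype.card_fin] at r2
  refine r2.congr ?_ ?_
  · rw [mul_assoc F, ← prod_mul_distrib]
  · rw [mul_assoc F, ← prod_mul_distrib]
    exact congrArg (F * ·) (prod_congr rfl fun i _ => by ring)

lemma red3 (F : Rg) (h7 : ∀ i, cd (cov false (i, 7)) F = 0) :
    Red (cov false) lam 12 (F * ∏ i : Fin 12, (X (i, 0) * X (i, 1) * (X (i, 7) * X (i, 5))))
      (C ((1 / 2) ^ 12) * F * ∏ i : Fin 12, (X (i, 0) * X (i, 1))) := by
  have r3 := elim (lam := lam) (cov_symm false) (fun i : Fin 12 => ((i, 7) : Va))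
    (fun i => X (i + 1, 5)) (fun _ => C (1 / 2)) (fun i => by simp [lam, lamZ])
    (fun i j => by simp [cov, cov7]) (fun i => by simp [cov, cov7])
    (fun i j hij => by simp [cov, cov7, hij.symm]) (fun i j _ => by simp) univ
    (F * ∏ i, (X (i, 0) * X (i, 1)))
    (fun i _ => by
      rw [cd_mul, h7, cd_prod_zero]
      · simp
      · intro j _; simp [cov, cov7])
  rw [card_univ, Fintype.card_fin] at r3
  refine r3.congr ?_ ?_
  · have e : ∏ i : Fin 12, (X (i + 1, 5) : Rg) = ∏ i : Fin 12, X (i, 5) :=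
      Fintype.prod_equiv (Equiv.addRight 1) _ _ (fun _ => rfl)
    rw [prod_mul_distrib (f := fun i : Fin 12 => (X (i, 7) : Rg)), e, mul_assoc F,
      ← prod_mul_distrib, ← prod_mul_distrib]
  · rw [prod_const, card_univ, Fintype.card_fin, ← map_pow]; ring

lemma red4 (F : Rg) (r : ℚ) (c : Fin 4 → Fin 3 → ℚ)
    (h1 : ∀ m a, cd (cov false (un m a, 1)) F = C (c m a)) :
    Red (cov false) lam 12 (C r * F * ∏ i : Fin 12, (X (i, 0) * X (i, 1)))
      (C (r * (-1 / 4) ^ 4) * (F - ∑ m, ∑ a, C (2 * c m a) * X (un (m + 1) a, 0))) := by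
  have r4 := elimL (lam := lam) (cov_symm false) (fun m a => ((un m a, 1) : Va))
    (fun m a => X (un (m + 1) a, 0)) c (fun m a => by simp [lam, lamZ])
    (fun m a m' b => by simp [cov, cov11])
    (fun m a b => by
      rw [cd_X, cov, cov10, if_pos rfl]
      split_ifs <;> norm_num)
    (fun m a m' b h => by simp [cov, cov10, h]) univ r F (fun m _ a => h1 m a)
  rw [card_univ, Fintype.card_fin, show 3 * 4 = 12 from rfl] at r4
  refine r4.congr ?_ rfl
  have e : ∏ m : Fin 4, (X (un (m + 1) 0, 0) * X (un (m + 1) 1, 0) * X (un (m + 1) 2, 0) : Rg) =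
      ∏ m : Fin 4, (X (un m 0, 0) * X (un m 1, 0) * X (un m 2, 0) : Rg) :=
    Fintype.prod_equiv (Equiv.addRight 1) _ _ (fun _ => rfl)
  rw [prod_mul_distrib (f := fun i : Fin 12 => (X (i, 0) : Rg)), prod12 fun i => X (i, 0),
    prod12 fun i => X (i, 1), ← e, ← prod_mul_distrib]
  exact congrArg (C r * F * ·) (prod_congr rfl fun i _ => mul_comm _ _)

lemma red_all (F : Rg) (c : Fin 4 → Fin 3 → ℚ) (h2 : ∀ i, cd (cov false (i, 2)) F = 0)
    (h3 : ∀ i, cd (cov false (i, 3)) F = 0) (h7 : ∀ i, cd (cov false (i, 7)) F = 0)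
    (h1 : ∀ m a, cd (cov false (un m a, 1)) F = C (c m a)) :
    Red (cov false) lam 48 (F * ∏ i, Od i) (C ((1 / 2) ^ 12 * (-1 / 4) ^ 4) *
      (F - ∑ m, ∑ a, C (2 * c m a) * X (un (m + 1) a, 0))) := by
  have h := ((red1 F h2).trans (red2 F h3)).trans ((red3 F h7).trans (red4 F _ c h1))
  rw [show 12 + 12 + (12 + 12) = 48 from rfl] at h
  exact h

lemma E_X0 (k : ℕ) (i : Fin 12) : E (cov false) lam k (X (i, 0)) = k := by
  have := stein lam (cov_symm false) k (i, 0) 1
  simpa [lam, lamZ, E_one] using this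

lemma E_ev (k : ℕ) (i : Fin 12) (c : Fin 4) : E (cov false) lam k (lin (ev i c)) = k := by
  have := stein_lin lam (cov_symm false) k (ev i c) 1
  simpa [pairQ_lam, lam_ev, E_one] using this

lemma ev_dQ (i : Fin 12) (c : Fin 4) :
    ∑ m : Fin 4, ∑ a : Fin 3, (pairZ (ev i c) (CovZ false (un m a, 1)) : ℚ) = 1 := by
  exact_mod_cast ev_d i c

lemma cd_ev (p : Va) (i : Fin 12) (c : Fin 4) : cd (cov false p) (lin (ev i c)) =
    C ((pairZ (ev i c) (CovZ false p) : ℚ) * (1 / 2)) := by
  rw [cd_lin, ← pairQ_cast]; rfl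

lemma sum_aux (z : Fin 4 → Fin 3 → ℚ) (hz : ∑ m, ∑ a, z m a = 1) (r : ℚ) :
    ∑ m, ∑ a, 2 * (z m a * (1 / 2)) * r = r := by
  simp only [Fin.sum_univ_four, Fin.sum_univ_three] at hz ⊢
  linear_combination r * hz

lemma top_ev (k : ℕ) (i : Fin 12) (c : Fin 4) :
    E (cov false) lam k (lin (ev i c) * ∏ i, Od i) = 0 := by
  have h := red_all (lin (ev i c))
    (fun m a => (pairZ (ev i c) (CovZ false (un m a, 1)) : ℚ) * (1 / 2))
    (fun j => by rw [cd_ev, (ev_u i c j).1]; simp)
    (fun j => by rw [cd_ev, (ev_u i c j).2.1]; simp)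
    (fun j => by rw [cd_ev, (ev_u i c j).2.2]; simp) (fun m a => cd_ev _ i c) k
  rw [h, E_C_mul, map_sub, E_ev]
  simp only [map_sum, E_C_mul, E_X0]
  rw [sum_aux _ (ev_dQ i c), sub_self, mul_zero, mul_zero]

lemma top_one' (k : ℕ) : E (cov false) lam k (1 * ∏ i, Od i) =
    (k.descFactorial 48 : ℚ) * ((1 / 2) ^ 12 * (-1 / 4) ^ 4) := by
  have h := red_all 1 (fun _ _ => 0) (by simp) (by simp) (by simp) (by simp) k
  rw [h, E_C_mul]
  simp only [mul_zero, map_zero, zero_mul, sum_const_zero, sub_zero, E_one, mul_one]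

lemma top_one (k : ℕ) (hk : 48 ≤ k) : E (cov false) lam k (1 * ∏ i, Od i) ≠ 0 := by
  rw [top_one']
  refine mul_ne_zero ?_ (by norm_num)
  rw [Nat.cast_ne_zero, Ne, Nat.descFactorial_eq_zero_iff_lt]
  omega

lemma model_Ex (s : Bool) : (model s).Ex = E (cov s) lam := rfl

lemma model_x (s : Bool) : (model s).x = fun v => lin (fm v) := rfl

theorem double_eq (k : ℕ) (v : Vx) :
    (model false).Ex k ((model false).x v * ∏ u, (model false).x u) =
      (model true).Ex k ((model true).x v * ∏ u, (model true).x u) := by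
  simp only [model_Ex, model_x]
  rw [prod_x, E_fm, E_fm, ← sub_eq_zero, E_diff _ (fun a b => sg_ev a b _ _), top_ev, mul_zero]

lemma chrom_diff (k : ℕ) : (model false).Ex k (∏ u, (model false).x u) -
    (model true).Ex k (∏ u, (model true).x u) =
      2 * (-8) ^ 12 * E (cov false) lam k (1 * ∏ i, Od i) := by
  simp only [model_Ex, model_x]
  rw [← E_diff 1 (fun a b => map_one _) k, prod_x, one_mul (∏ i, (C (-8) * Od i + Ev i))]

theorem chrom_ne (k : ℕ) (hk : 48 ≤ k) : (model false).Ex k (∏ u, (model false).x u) ≠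
    (model true).Ex k (∏ u, (model true).x u) := by
  rw [← sub_ne_zero, chrom_diff]
  exact mul_ne_zero (by norm_num) (top_one k hk)

theorem rho_eq (k : ℕ) (v : Vx) :
    (model false).Ex k ((opD ((model false).dv v) ^ 2) (∏ u ∈ univ.erase v, (model false).x u)) =
    (model true).Ex k ((opD ((model true).dv v) ^ 2) (∏ u ∈ univ.erase v, (model true).x u)) := by
  have h := double_eq (k + 2) v
  rw [Model.double, Model.double] at h
  exact mul_left_cancel₀ (by positivity) h

end Pool.Agent.Lib.MP_d3f2bc_co
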